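import Mathlib

namespace Pool.Agent.Results.MP_a6fba8_lc.UNNotModular

/-- First-order terms over the signature with function symbols `F` and arities `ar`, with
variables indexed by `ℕ`. -/
inductive Term {F : Type} (ar : F → ℕ) : Type
  | var : ℕ → Term ar
  | app : (f : F) → (Fin (ar f) → Term ar) → Term ar

namespace Term

variable {F : Type} {ar : F → ℕ}

/-- Application of a substitution. -/
def subst (σ : ℕ → Term ar) : Term ar → Term ar
  | var n => σ n
  | app f ts => app f (fun i => (ts i).subst σ)

/-- The set of variables of a term. -/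
def vars : Term ar → Set ℕ
  | var n => {n}
  | app _ ts => {n | ∃ i, n ∈ (ts i).vars}

end Term

/-- A conditional rule `conds ⇒ lhs → rhs`, the condition being the conjunction of the
joinability conditions `u ↓ v` for `(u, v)` in the list `conds`. -/
structure Rule {F : Type} (ar : F → ℕ) where
  lhs : Term ar
  rhs : Term ar
  conds : List (Term ar × Term ar)

/-- A join CTRS: a set of rules whose left-hand sides are not variables. -/
structure JoinCTRS {F : Type} (ar : F → ℕ) where
  rules : Set (Rule ar)
  lhs_ne_var : ∀ ρ ∈ rules, ∀ n, ρ.lhs ≠ Term.var n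

section Rewriting

variable {F : Type} {ar : F → ℕ}

/-- Closure of a relation under contexts. -/
inductive Ctx (P : Term ar → Term ar → Prop) : Term ar → Term ar → Prop
  | base {s t : Term ar} : P s t → Ctx P s t
  | arg (f : F) (ts : Fin (ar f) → Term ar) (i : Fin (ar f)) (t' : Term ar) :
      Ctx P (ts i) t' → Ctx P (Term.app f ts) (Term.app f (Function.update ts i t'))

/-- `a` and `b` have a common reduct with respect to the relation `C`. -/
def Joinable (C : Term ar → Term ar → Prop) (a b : Term ar) : Prop :=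
  ∃ w, Relation.ReflTransGen C a w ∧ Relation.ReflTransGen C b w

/-- Instances of rules whose conditions hold with respect to `C`. -/
def Inst (R : JoinCTRS ar) (C : Term ar → Term ar → Prop) (s t : Term ar) : Prop :=
  ∃ ρ ∈ R.rules, ∃ σ : ℕ → Term ar, s = ρ.lhs.subst σ ∧ t = ρ.rhs.subst σ ∧
    ∀ c ∈ ρ.conds, Joinable C (c.1.subst σ) (c.2.subst σ)

/-- The levels of the rewrite relation. -/
def StepN (R : JoinCTRS ar) : ℕ → Term ar → Term ar → Prop
  | 0 => fun _ _ => False
  | n + 1 => Ctx (Inst R (StepN R n))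

/-- The one-step rewrite relation. -/
def Step (R : JoinCTRS ar) (s t : Term ar) : Prop := ∃ n, StepN R n s t

/-- Normal forms. -/
def NF (R : JoinCTRS ar) (t : Term ar) : Prop := ∀ t', ¬ Step R t t'

/-- Unique normal forms: convertible normal forms are identical. -/
def UN (R : JoinCTRS ar) : Prop :=
  ∀ s t, NF R s → NF R t → Relation.EqvGen (Step R) s t → s = t

/-- All variables of the right-hand side and of the conditions occur in the left-hand side. -/
def NoExtraVars (R : JoinCTRS ar) : Prop :=
  ∀ ρ ∈ R.rules, ρ.rhs.vars ⊆ ρ.lhs.vars ∧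
    ∀ c ∈ ρ.conds, c.1.vars ⊆ ρ.lhs.vars ∧ c.2.vars ⊆ ρ.lhs.vars

end Rewriting

section Union

variable {F₁ F₂ : Type} {ar₁ : F₁ → ℕ} {ar₂ : F₂ → ℕ}

/-- Terms over the first signature as terms over the disjoint union of the signatures. -/
def embL (ar₂ : F₂ → ℕ) : Term ar₁ → Term (Sum.elim ar₁ ar₂)
  | Term.var n => Term.var n
  | Term.app f ts => Term.app (Sum.inl f) (fun i => embL ar₂ (ts i))

/-- Terms over the second signature as terms over the disjoint union of the signatures. -/
def embR (ar₁ : F₁ → ℕ) : Term ar₂ → Term (Sum.elim ar₁ ar₂)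
  | Term.var n => Term.var n
  | Term.app f ts => Term.app (Sum.inr f) (fun i => embR ar₁ (ts i))

/-- Rules over the first signature as rules over the union. -/
def ruleL (ar₂ : F₂ → ℕ) (ρ : Rule ar₁) : Rule (Sum.elim ar₁ ar₂) :=
  ⟨embL ar₂ ρ.lhs, embL ar₂ ρ.rhs, ρ.conds.map (fun c => (embL ar₂ c.1, embL ar₂ c.2))⟩

/-- Rules over the second signature as rules over the union. -/
def ruleR (ar₁ : F₁ → ℕ) (ρ : Rule ar₂) : Rule (Sum.elim ar₁ ar₂) :=
  ⟨embR ar₁ ρ.lhs, embR ar₁ ρ.rhs, ρ.conds.map (fun c => (embR ar₁ c.1, embR ar₁ c.2))⟩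

lemma embL_ne_var {t : Term ar₁} (h : ∀ n, t ≠ Term.var n) (n : ℕ) :
    embL ar₂ t ≠ Term.var n := by
  cases t with
  | var m => exact absurd rfl (h m)
  | app f ts => simp [embL]

lemma embR_ne_var {t : Term ar₂} (h : ∀ n, t ≠ Term.var n) (n : ℕ) :
    embR ar₁ t ≠ Term.var n := by
  cases t with
  | var m => exact absurd rfl (h m)
  | app f ts => simp [embR]

/-- The disjoint union of two join CTRSs, over the disjoint union of the signatures. -/
def disjUnion (R : JoinCTRS ar₁) (S : JoinCTRS ar₂) : JoinCTRS (Sum.elim ar₁ ar₂) where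
  rules := ruleL ar₂ '' R.rules ∪ ruleR ar₁ '' S.rules
  lhs_ne_var := by
    rintro ρ (⟨ρ', h, rfl⟩ | ⟨ρ', h, rfl⟩) n
    · exact embL_ne_var (R.lhs_ne_var ρ' h) n
    · exact embR_ne_var (S.lhs_ne_var ρ' h) n

end Union

/-! ### The system `S` -/

/-- arity function of the signature of `S`: one ternary symbol -/
abbrev arS : Unit → ℕ := fun _ => 3

/-- the term `e(a, b, c)` -/
def e (a b c : Term arS) : Term arS := Term.app () ![a, b, c]

/-- `x ↓ z, z ↓ y ⇒ e(x, z, y) → x` -/
def s1 : Rule arS := ⟨e (Term.var 0) (Term.var 1) (Term.var 2), Term.var 0,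
  [(Term.var 0, Term.var 1), (Term.var 1, Term.var 2)]⟩

/-- `x ↓ z, z ↓ y ⇒ e(x, z, y) → y` -/
def s2 : Rule arS := ⟨e (Term.var 0) (Term.var 1) (Term.var 2), Term.var 2,
  [(Term.var 0, Term.var 1), (Term.var 1, Term.var 2)]⟩

/-- the system `S` -/
def SS : JoinCTRS arS where
  rules := {s1, s2}
  lhs_ne_var := by
    rintro ρ (rfl | rfl) n <;> simp [s1, s2, e]

lemma joinable_inv {F : Type} {ar : F → ℕ} {β : Type} {C : Term ar → Term ar → Prop}
    (N : Term ar → β) (h : ∀ s t, C s t → N s = N t) {a b : Term ar} (hab : Joinable C a b) :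
    N a = N b := by
  have key : ∀ x y, Relation.ReflTransGen C x y → N x = N y := by
    intro x y hxy
    induction hxy with
    | refl => rfl
    | tail _ h2 ih => exact ih.trans (h _ _ h2)
  obtain ⟨w, h1, h2⟩ := hab
  exact (key _ _ h1).trans (key _ _ h2).symm

lemma eqvGen_inv {α β : Type} {C : α → α → Prop} (N : α → β) (h : ∀ s t, C s t → N s = N t)
    {a b : α} (hab : Relation.EqvGen C a b) : N a = N b := by
  induction hab with
  | rel x y hxy => exact h x y hxy
  | refl x => rfl
  | symm x y _ ih => exact ih.symm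
  | trans x y z _ _ ih1 ih2 => exact ih1.trans ih2

open Classical in
/-- auxiliary operation -/
noncomputable def comb (f : Unit) (g : Fin 3 → Term arS) : Term arS :=
  if g 0 = g 1 ∧ g 1 = g 2 then g 0 else Term.app f g

/-- semantic normal form for `S` -/
noncomputable def nS : Term arS → Term arS
  | Term.var n => Term.var n
  | Term.app f ts => comb f (fun i => nS (ts i))

lemma nS_stepN (n : ℕ) : ∀ s t, StepN SS n s t → nS s = nS t := by
  induction n with
  | zero => intro s t h; exact h.elim
  | succ n ih =>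
    intro s t h
    induction h with
    | base h =>
      obtain ⟨ρ, hρ, σ, rfl, rfl, hc⟩ := h
      rcases hρ with rfl | rfl
      · have h1 := joinable_inv nS ih (hc (Term.var 0, Term.var 1) (by simp [s1]))
        have h2 := joinable_inv nS ih (hc (Term.var 1, Term.var 2) (by simp [s1]))
        simp only [Term.subst] at h1 h2
        simp only [s1, e, Term.subst, nS, comb, Matrix.cons_val_zero, Matrix.cons_val_one,
          Matrix.cons_val]
        rw [if_pos ⟨h1, h2⟩]
      · have h1 := joinable_inv nS ih (hc (Term.var 0, Term.var 1) (by simp [s2]))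
        have h2 := joinable_inv nS ih (hc (Term.var 1, Term.var 2) (by simp [s2]))
        simp only [Term.subst] at h1 h2
        simp only [s2, e, Term.subst, nS, comb, Matrix.cons_val_zero, Matrix.cons_val_one,
          Matrix.cons_val]
        rw [if_pos ⟨h1, h2⟩, h1, h2]
    | arg f ts i t' _ ih2 =>
      have key : (fun j => nS (ts j)) = fun j => nS (Function.update ts i t' j) := by
        funext j
        by_cases hj : j = i
        · subst hj
          rw [Function.update_self]
          exact ih2
        · rw [Function.update_of_ne hj]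
      show comb f (fun j => nS (ts j)) = comb f (fun j => nS (Function.update ts i t' j))
      rw [key]

lemma nS_nf (t : Term arS) : NF SS t → nS t = t := by
  induction t with
  | var n => intro _; rfl
  | app f ts ih =>
    intro h
    have hts : ∀ i, nS (ts i) = ts i := by
      intro i
      apply ih i
      rintro t' ⟨n, hn⟩
      cases n with
      | zero => exact hn
      | succ n => exact h _ ⟨n + 1, Ctx.arg f ts i t' hn⟩
    simp only [nS, comb]
    rw [if_neg]
    · simp only [hts]
    rintro ⟨h1, h2⟩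
    rw [hts, hts] at h1 h2
    apply h (ts 0)
    refine ⟨1, Ctx.base ⟨s1, Or.inl rfl, fun n => if n = 0 then ts 0 else if n = 1 then ts 1
      else ts 2, ?_, ?_, ?_⟩⟩
    · simp only [s1, e, Term.subst]
      congr 1
      funext i
      fin_cases i <;> rfl
    · rfl
    · intro c hc
      simp only [s1, List.mem_cons, List.not_mem_nil, or_false] at hc
      rcases hc with rfl | rfl
      · refine ⟨ts 1, ?_, ?_⟩
        · show Relation.ReflTransGen (StepN SS 0) (ts 0) (ts 1)
          rw [h1]
        · show Relation.ReflTransGen (StepN SS 0) (ts 1) (ts 1)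
          exact Relation.ReflTransGen.refl
      · refine ⟨ts 2, ?_, ?_⟩
        · show Relation.ReflTransGen (StepN SS 0) (ts 1) (ts 2)
          rw [h2]
        · show Relation.ReflTransGen (StepN SS 0) (ts 2) (ts 2)
          exact Relation.ReflTransGen.refl

theorem UN_SS : UN SS := by
  intro s t hs ht hst
  have h := eqvGen_inv nS (fun s t ⟨n, hn⟩ => nS_stepN n s t hn) hst
  rw [← nS_nf s hs, ← nS_nf t ht, h]


/-! ### The system `R` -/

/-- function symbols of `R` -/
inductive FR : Type
  | p | q | m | q' | r | zero | one | A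

/-- arities of the function symbols of `R` -/
abbrev arR : FR → ℕ
  | FR.A => 1
  | _ => 0

/-- constants of `R` -/
def cp : Term arR := Term.app FR.p ![]
/-- constants of `R` -/
def cq : Term arR := Term.app FR.q ![]
/-- constants of `R` -/
def cm : Term arR := Term.app FR.m ![]
/-- constants of `R` -/
def cq' : Term arR := Term.app FR.q' ![]
/-- constants of `R` -/
def cr : Term arR := Term.app FR.r ![]
/-- constants of `R` -/
def c0 : Term arR := Term.app FR.zero ![]
/-- constants of `R` -/
def c1 : Term arR := Term.app FR.one ![]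
/-- the term `A(t)` -/
def tA (t : Term arR) : Term arR := Term.app FR.A ![t]

/-- the rules of `R` -/
def rulesR : List (Rule arR) :=
  [⟨cq, cp, []⟩, ⟨cq, cm, []⟩, ⟨cq', cm, []⟩, ⟨cq', cr, []⟩,
   ⟨cp, cp, []⟩, ⟨cm, cm, []⟩, ⟨cr, cr, []⟩,
   ⟨tA (Term.var 0), c0, []⟩,
   ⟨tA (Term.var 0), c1, [(Term.var 0, cp), (Term.var 0, cr)]⟩]

/-- the system `R` -/
def RR : JoinCTRS arR where
  rules := {ρ | ρ ∈ rulesR}
  lhs_ne_var := by
    intro ρ hρ n
    simp only [rulesR, List.mem_cons, List.not_mem_nil, or_false, Set.mem_ofPred_eq] at hρ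
    rcases hρ with rfl | rfl | rfl | rfl | rfl | rfl | rfl | rfl | rfl <;>
      simp [cp, cq, cm, cq', cr, tA]

/-- head symbol -/
def hd : Term arR → Option FR
  | Term.var _ => none
  | Term.app f _ => some f

lemma cp_subst (σ : ℕ → Term arR) : cp.subst σ = cp :=
  congrArg (Term.app FR.p) (funext fun i => i.elim0)

lemma cr_subst (σ : ℕ → Term arR) : cr.subst σ = cr :=
  congrArg (Term.app FR.r) (funext fun i => i.elim0)

/-- Description of the one-step relation of `R` by head symbols -/
lemma stepR_cases {n : ℕ} {s t : Term arR} (h : StepN RR n s t) :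
    (hd s = some FR.q ∧ (hd t = some FR.p ∨ hd t = some FR.m)) ∨
    (hd s = some FR.q' ∧ (hd t = some FR.m ∨ hd t = some FR.r)) ∨
    (hd s = some FR.p ∧ hd t = some FR.p) ∨ (hd s = some FR.m ∧ hd t = some FR.m) ∨
    (hd s = some FR.r ∧ hd t = some FR.r) ∨
    (hd s = some FR.A ∧ (hd t = some FR.zero ∨ hd t = some FR.A)) ∨
    (hd s = some FR.A ∧ hd t = some FR.one ∧ ∃ k x, n = k + 1 ∧ Joinable (StepN RR k) x cp ∧
      Joinable (StepN RR k) x cr) := by
  cases n with
  | zero => exact h.elim
  | succ n =>
    cases h with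
    | base h =>
      obtain ⟨ρ, hρ, σ, rfl, rfl, hc⟩ := h
      simp only [RR, rulesR, List.mem_cons, List.not_mem_nil, or_false, Set.mem_ofPred_eq] at hρ
      rcases hρ with rfl | rfl | rfl | rfl | rfl | rfl | rfl | rfl | rfl
      · simp [cq, cp, Term.subst, hd]
      · simp [cq, cm, Term.subst, hd]
      · simp [cq', cm, Term.subst, hd]
      · simp [cq', cr, Term.subst, hd]
      · simp [cp, Term.subst, hd]
      · simp [cm, Term.subst, hd]
      · simp [cr, Term.subst, hd]
      · simp [tA, c0, Term.subst, hd]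
      · right; right; right; right; right; right
        refine ⟨rfl, rfl, n, σ 0, rfl, ?_, ?_⟩
        · have := hc (Term.var 0, cp) (by simp)
          rw [cp_subst] at this
          exact this
        · have := hc (Term.var 0, cr) (by simp)
          rw [cr_subst] at this
          exact this
    | arg f ts i t' h =>
      cases f with
      | A => simp [hd]
      | _ => exact i.elim0


/-- No term of `R` is joinable with both `p` and `r`. -/
lemma not_joinable_both {n : ℕ} {x : Term arR} (h1 : Joinable (StepN RR n) x cp)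
    (h2 : Joinable (StepN RR n) x cr) : False := by
  -- reducts of `p`, `r`
  have redp : ∀ (f : FR), f = FR.p ∨ f = FR.r → ∀ a b, Relation.ReflTransGen (StepN RR n) a b →
      hd a = some f → hd b = some f := by
    intro f hf a b hab ha
    induction hab with
    | refl => exact ha
    | tail _ h ihh =>
      have := stepR_cases h
      rw [ihh] at this
      rcases hf with rfl | rfl
      · simpa using this
      · simpa using this
  -- terms reducing to `p`
  have top : ∀ a b, Relation.ReflTransGen (StepN RR n) a b → hd b = some FR.p →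
      hd a = some FR.p ∨ hd a = some FR.q := by
    intro a b hab hb
    induction hab using Relation.ReflTransGen.head_induction_on with
    | refl => exact Or.inl hb
    | head h _ ihh =>
      have := stepR_cases h
      rcases ihh with h' | h'
      · rw [h'] at this
        simp at this
        tauto
      · rw [h'] at this
        simp at this
  have tor : ∀ a b, Relation.ReflTransGen (StepN RR n) a b → hd b = some FR.r →
      hd a = some FR.r ∨ hd a = some FR.q' := by
    intro a b hab hb
    induction hab using Relation.ReflTransGen.head_induction_on with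
    | refl => exact Or.inl hb
    | head h _ ihh =>
      have := stepR_cases h
      rcases ihh with h' | h'
      · rw [h'] at this
        simp at this
        tauto
      · rw [h'] at this
        simp at this
  obtain ⟨w1, a1, b1⟩ := h1
  obtain ⟨w2, a2, b2⟩ := h2
  have e1 := top _ _ a1 (redp FR.p (Or.inl rfl) _ _ b1 rfl)
  have e2 := tor _ _ a2 (redp FR.r (Or.inr rfl) _ _ b2 rfl)
  rcases e1 with e1 | e1 <;> rcases e2 with e2 | e2 <;> rw [e1] at e2 <;> simp at e2

/-- invariant for `R` -/
def iR : Term arR → ℕ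
  | Term.var n => n + 3
  | Term.app FR.zero _ => 0
  | Term.app FR.A _ => 0
  | Term.app FR.one _ => 1
  | Term.app _ _ => 2

lemma iR_of_hd {t : Term arR} {f : FR} (h : hd t = some f) :
    iR t = match f with | FR.zero => 0 | FR.A => 0 | FR.one => 1 | _ => 2 := by
  cases t with
  | var n => simp [hd] at h
  | app g ts =>
    simp only [hd, Option.some.injEq] at h
    subst h
    cases g <;> rfl

lemma iR_step {n : ℕ} {s t : Term arR} (h : StepN RR n s t) : iR s = iR t := by
  rcases stepR_cases h with ⟨h1, h2 | h2⟩ | ⟨h1, h2 | h2⟩ | ⟨h1, h2⟩ | ⟨h1, h2⟩ | ⟨h1, h2⟩ |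
    ⟨h1, h2 | h2⟩ | ⟨_, _, k, x, _, h3, h4⟩
  all_goals first
    | (rw [iR_of_hd h1, iR_of_hd h2])
    | (exact (not_joinable_both h3 h4).elim)


lemma root_step {F : Type} {ar : F → ℕ} (R : JoinCTRS ar) (ρ : Rule ar) (hρ : ρ ∈ R.rules)
    (σ : ℕ → Term ar) (n : ℕ)
    (hc : ∀ c ∈ ρ.conds, Joinable (StepN R n) (c.1.subst σ) (c.2.subst σ)) {s t : Term ar}
    (hs : s = ρ.lhs.subst σ) (ht : t = ρ.rhs.subst σ) : StepN R (n + 1) s t :=
  Ctx.base ⟨ρ, hρ, σ, hs, ht, hc⟩

lemma elim0_ext {F : Type} {ar : F → ℕ} {f : F} (h : ar f = 0) (g g' : Fin (ar f) → Term ar) :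
    Term.app f g = Term.app f g' := by
  congr 1
  funext i
  exact (Fin.cast h i).elim0

lemma R_ext (f : FR) (h : arR f = 0) (g g' : Fin (arR f) → Term arR) :
    Term.app f g = Term.app f g' := elim0_ext h g g'

lemma nf_R {t : Term arR} (h : NF RR t) : (∃ n, t = Term.var n) ∨ t = c0 ∨ t = c1 := by
  cases t with
  | var n => exact Or.inl ⟨n, rfl⟩
  | app f ts =>
    cases f with
    | zero => right; left; exact R_ext FR.zero rfl _ _
    | one => right; right; exact R_ext FR.one rfl _ _
    | A =>
      exfalso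
      apply h c0
      refine ⟨1, root_step RR ⟨tA (Term.var 0), c0, []⟩ (by simp [RR, rulesR])
        (fun _ => ts 0) 0 (by simp) ?_ ?_⟩
      · simp only [tA, Term.subst]
        congr 1
        funext i
        fin_cases i
        rfl
      · exact R_ext FR.zero rfl _ _
    | p =>
      exfalso
      exact h cp ⟨1, root_step RR ⟨cp, cp, []⟩ (by simp [RR, rulesR]) Term.var 0 (by simp)
        (R_ext FR.p rfl _ _) (R_ext FR.p rfl _ _)⟩
    | q =>
      exfalso
      exact h cp ⟨1, root_step RR ⟨cq, cp, []⟩ (by simp [RR, rulesR]) Term.var 0 (by simp)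
        (R_ext FR.q rfl _ _) (R_ext FR.p rfl _ _)⟩
    | q' =>
      exfalso
      exact h cm ⟨1, root_step RR ⟨cq', cm, []⟩ (by simp [RR, rulesR]) Term.var 0 (by simp)
        (R_ext FR.q' rfl _ _) (R_ext FR.m rfl _ _)⟩
    | m =>
      exfalso
      exact h cm ⟨1, root_step RR ⟨cm, cm, []⟩ (by simp [RR, rulesR]) Term.var 0 (by simp)
        (R_ext FR.m rfl _ _) (R_ext FR.m rfl _ _)⟩
    | r =>
      exfalso
      exact h cr ⟨1, root_step RR ⟨cr, cr, []⟩ (by simp [RR, rulesR]) Term.var 0 (by simp)
        (R_ext FR.r rfl _ _) (R_ext FR.r rfl _ _)⟩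

theorem UN_RR : UN RR := by
  intro s t hs ht hst
  have h := eqvGen_inv iR (fun s t ⟨n, hn⟩ => iR_step hn) hst
  rcases nf_R hs with ⟨n, rfl⟩ | rfl | rfl <;> rcases nf_R ht with ⟨k, rfl⟩ | rfl | rfl
  · have : n + 3 = k + 3 := h
    have : n = k := by omega
    rw [this]
  · have : n + 3 = 0 := h
    omega
  · have : n + 3 = 1 := h
    omega
  · have : 0 = k + 3 := h
    omega
  · rfl
  · have : 0 = 1 := h
    omega
  · have : 1 = k + 3 := h
    omega
  · have : 1 = 0 := h
    omega
  · rfl

/-! ### The disjoint union -/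

/-- the union -/
abbrev UU := disjUnion RR SS

/-- arities of the union -/
abbrev arU : FR ⊕ Unit → ℕ := Sum.elim arR arS

/-- constants of the union -/
def kst (f : FR) (h : arR f = 0) : Term arU :=
  Term.app (Sum.inl f) (fun i => (Fin.cast h i).elim0)

lemma kst_ext (f : FR) (h : arR f = 0) (g : Fin (arR f) → Term arU) :
    kst f h = Term.app (ar := arU) (Sum.inl f) g :=
  elim0_ext (ar := arU) (f := Sum.inl f) h _ _

lemma stepU_const (f g : FR) (hf : arR f = 0) (hg : arR g = 0) (a b : Term arR)
    (ha : a = Term.app f (fun i => (Fin.cast hf i).elim0))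
    (hb : b = Term.app g (fun i => (Fin.cast hg i).elim0))
    (h : (⟨a, b, []⟩ : Rule arR) ∈ RR.rules) (n : ℕ) :
    StepN UU (n + 1) (kst f hf) (kst g hg) := by
  subst ha hb
  refine root_step UU (ruleL arS ⟨_, _, []⟩) (Or.inl ⟨_, h, rfl⟩) Term.var n (by simp [ruleL]) ?_ ?_
  · exact kst_ext _ _ _
  · exact kst_ext _ _ _

/-- the term `e(p, q, q')` of the union -/
def tE : Term arU := Term.app (Sum.inr ()) ![kst FR.p rfl, kst FR.q rfl, kst FR.q' rfl]

/-- the term `A(e(p, q, q'))` of the union -/
def tAE : Term arU := Term.app (Sum.inl FR.A) ![tE]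

lemma step_qp (n : ℕ) : StepN UU (n + 1) (kst FR.q rfl) (kst FR.p rfl) :=
  stepU_const FR.q FR.p rfl rfl cq cp (R_ext FR.q rfl _ _) (R_ext FR.p rfl _ _)
    (by simp [RR, rulesR]) n

lemma step_qm (n : ℕ) : StepN UU (n + 1) (kst FR.q rfl) (kst FR.m rfl) :=
  stepU_const FR.q FR.m rfl rfl cq cm (R_ext FR.q rfl _ _) (R_ext FR.m rfl _ _)
    (by simp [RR, rulesR]) n

lemma step_q'm (n : ℕ) : StepN UU (n + 1) (kst FR.q' rfl) (kst FR.m rfl) :=
  stepU_const FR.q' FR.m rfl rfl cq' cm (R_ext FR.q' rfl _ _) (R_ext FR.m rfl _ _)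
    (by simp [RR, rulesR]) n

lemma step_q'r (n : ℕ) : StepN UU (n + 1) (kst FR.q' rfl) (kst FR.r rfl) :=
  stepU_const FR.q' FR.r rfl rfl cq' cr (R_ext FR.q' rfl _ _) (R_ext FR.r rfl _ _)
    (by simp [RR, rulesR]) n

/-- substitution used for the rules of `S` -/
def sg : ℕ → Term arU := fun n =>
  if n = 0 then kst FR.p rfl else if n = 1 then kst FR.q rfl else kst FR.q' rfl

lemma join_pq : Joinable (StepN UU 1) (kst FR.p rfl) (kst FR.q rfl) :=
  ⟨kst FR.p rfl, Relation.ReflTransGen.refl, Relation.ReflTransGen.single (step_qp 0)⟩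

lemma join_qq' : Joinable (StepN UU 1) (kst FR.q rfl) (kst FR.q' rfl) :=
  ⟨kst FR.m rfl, Relation.ReflTransGen.single (step_qm 0),
    Relation.ReflTransGen.single (step_q'm 0)⟩

lemma tE_eq : tE = (ruleR arR s1).lhs.subst sg := by
  simp only [tE, ruleR, s1, e, embR, Term.subst]
  congr 1
  funext i
  fin_cases i <;> rfl

lemma step_tE_p : StepN UU 2 tE (kst FR.p rfl) := by
  refine root_step UU (ruleR arR s1) (Or.inr ⟨s1, Or.inl rfl, rfl⟩) sg 1 ?_ tE_eq rfl
  intro c hc
  simp only [ruleR, s1, List.map_cons, List.map_nil, List.mem_cons, List.not_mem_nil,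
    or_false] at hc
  rcases hc with rfl | rfl
  · exact join_pq
  · exact join_qq'

lemma step_tE_q' : StepN UU 2 tE (kst FR.q' rfl) := by
  refine root_step UU (ruleR arR s2) (Or.inr ⟨s2, Or.inr rfl, rfl⟩) sg 1 ?_ tE_eq rfl
  intro c hc
  simp only [ruleR, s2, List.map_cons, List.map_nil, List.mem_cons, List.not_mem_nil,
    or_false] at hc
  rcases hc with rfl | rfl
  · exact join_pq
  · exact join_qq'

lemma step_tAE_0 : StepN UU 1 tAE (kst FR.zero rfl) := by
  refine root_step UU (ruleL arS ⟨tA (Term.var 0), c0, []⟩)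
    (Or.inl ⟨_, by simp [RR, rulesR], rfl⟩) (fun _ => tE) 0 (by simp [ruleL]) ?_ ?_
  · simp only [tAE, ruleL, tA, embL, Term.subst]
    congr 1
    funext i
    fin_cases i
    rfl
  · exact kst_ext _ _ _

lemma step_tAE_1 : StepN UU 3 tAE (kst FR.one rfl) := by
  refine root_step UU (ruleL arS ⟨tA (Term.var 0), c1, [(Term.var 0, cp), (Term.var 0, cr)]⟩)
    (Or.inl ⟨_, by simp [RR, rulesR], rfl⟩) (fun _ => tE) 2 ?_ ?_ ?_
  · intro c hc
    simp only [ruleL, List.map_cons, List.map_nil, List.mem_cons, List.not_mem_nil,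
      or_false] at hc
    rcases hc with rfl | rfl
    · refine ⟨kst FR.p rfl, Relation.ReflTransGen.single step_tE_p, ?_⟩
      have : (embL arS cp).subst (fun _ => tE) = kst FR.p rfl := (kst_ext _ _ _).symm
      show Relation.ReflTransGen _ ((embL arS cp).subst (fun _ => tE)) _
      rw [this]
    · refine ⟨kst FR.r rfl, (Relation.ReflTransGen.single step_tE_q').tail (step_q'r 1), ?_⟩
      have : (embL arS cr).subst (fun _ => tE) = kst FR.r rfl := (kst_ext _ _ _).symm
      show Relation.ReflTransGen _ ((embL arS cr).subst (fun _ => tE)) _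
      rw [this]
  · simp only [tAE, ruleL, tA, embL, Term.subst]
    congr 1
    funext i
    fin_cases i
    rfl
  · exact kst_ext _ _ _

/-- head symbol in the union -/
def hdU : Term arU → Option (FR ⊕ Unit)
  | Term.var _ => none
  | Term.app f _ => some f

lemma nf_U (f : FR) (hf : f = FR.zero ∨ f = FR.one) (h0 : arR f = 0) : NF UU (kst f h0) := by
  rintro t ⟨n, hn⟩
  cases n with
  | zero => exact hn
  | succ n =>
    generalize hs : kst f h0 = s at hn
    cases hn with
    | base h =>
      obtain ⟨ρ, hρ, σ, h1, h2, hc⟩ := h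
      have hh : hdU s = some (Sum.inl f) := by rw [← hs]; rfl
      rw [h1] at hh
      rcases hρ with ⟨ρ', hρ', rfl⟩ | ⟨ρ', hρ', rfl⟩
      · simp only [RR, rulesR, List.mem_cons, List.not_mem_nil, or_false,
          Set.mem_ofPred_eq] at hρ'
        rcases hρ' with rfl | rfl | rfl | rfl | rfl | rfl | rfl | rfl | rfl <;>
          rcases hf with rfl | rfl <;>
          simp [ruleL, cp, cq, cm, cq', cr, tA, embL, Term.subst, hdU] at hh
      · rcases hρ' with rfl | rfl <;> simp [ruleR, s1, s2, e, embR, Term.subst, hdU] at hh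
    | arg g ts i t' h =>
      have hh : hdU (Term.app g ts) = some (Sum.inl f) := by rw [← hs]; rfl
      simp only [hdU, Option.some.injEq] at hh
      subst hh
      exact (Fin.cast h0 i).elim0

/-- **Main theorem.** UN is not modular for join conditional term rewriting systems: there are
finite join CTRSs `R` and `S` without extra variables, over disjoint signatures, both with
unique normal forms, whose disjoint union does not have unique normal forms. -/
theorem result : ∃ (F₁ F₂ : Type) (ar₁ : F₁ → ℕ) (ar₂ : F₂ → ℕ) (R : JoinCTRS ar₁)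
    (S : JoinCTRS ar₂), R.rules.Finite ∧ S.rules.Finite ∧ NoExtraVars R ∧ NoExtraVars S ∧
    UN R ∧ UN S ∧ ¬ UN (disjUnion R S) := by
  refine ⟨FR, Unit, arR, arS, RR, SS, ?_, ?_, ?_, ?_, UN_RR, UN_SS, ?_⟩
  · exact List.finite_toSet rulesR
  · exact (Set.finite_singleton s2).insert s1
  · intro ρ hρ
    simp only [RR, rulesR, List.mem_cons, List.not_mem_nil, or_false, Set.mem_ofPred_eq] at hρ
    have key : ∀ (f : FR) (h : arR f = 0) (g : Fin (arR f) → Term arR),
        (Term.app f g).vars = ∅ := by
      intro f h g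
      ext n
      simp only [Term.vars, Set.mem_ofPred_eq, Set.mem_empty_iff_false, iff_false]
      rintro ⟨i, _⟩
      exact (Fin.cast h i).elim0
    have k1 : cp.vars = ∅ := key _ rfl _
    have k2 : cq.vars = ∅ := key _ rfl _
    have k3 : cm.vars = ∅ := key _ rfl _
    have k4 : cq'.vars = ∅ := key _ rfl _
    have k5 : cr.vars = ∅ := key _ rfl _
    have k6 : c0.vars = ∅ := key _ rfl _
    have k7 : c1.vars = ∅ := key _ rfl _
    have k8 : (tA (Term.var 0)).vars = {0} := by
      ext n
      simp [tA, Term.vars]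
    rcases hρ with rfl | rfl | rfl | rfl | rfl | rfl | rfl | rfl | rfl <;>
      simp [k1, k2, k3, k4, k5, k6, k7, k8, Term.vars]
  · intro ρ hρ
    have k : (e (Term.var 0) (Term.var 1) (Term.var 2)).vars = {0, 1, 2} := by
      ext n
      simp only [e, Term.vars, Set.mem_ofPred_eq, Set.mem_insert_iff, Set.mem_singleton_iff]
      constructor
      · rintro ⟨i, hi⟩
        fin_cases i
        · left; simpa [Term.vars] using hi
        · right; left; simpa [Term.vars] using hi
        · right; right; simpa [Term.vars] using hi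
      · rintro (rfl | rfl | rfl)
        · exact ⟨0, by simp [Term.vars]⟩
        · exact ⟨1, by simp [Term.vars]⟩
        · exact ⟨2, by simp [Term.vars]⟩
    rcases hρ with rfl | rfl <;> simp [s1, s2, k, Term.vars]
  · intro h
    have h1 : Relation.EqvGen (Step UU) (kst FR.zero rfl) (kst FR.one rfl) :=
      Relation.EqvGen.trans _ tAE _
        (Relation.EqvGen.symm _ _ (Relation.EqvGen.rel _ _ ⟨1, step_tAE_0⟩))
        (Relation.EqvGen.rel _ _ ⟨3, step_tAE_1⟩)
    have h2 := h _ _ (nf_U FR.zero (Or.inl rfl) rfl) (nf_U FR.one (Or.inr rfl) rfl) h1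
    have h3 : hdU (kst FR.zero rfl) = hdU (kst FR.one rfl) := by rw [h2]
    simp [hdU, kst] at h3

end Pool.Agent.Results.MP_a6fba8_lc.UNNotModular
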